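import Mathlib

set_option autoImplicit false

open Finset MeasureTheory Complex Metric

namespace Pool.Agent.Q38.SD

/-- the norm of the coefficients of a polynomial, weight `3 ^ l` -/
theorem coeff_sum (Z : Finset ℂ) (hZ : ∀ z ∈ Z, ‖z‖ ≤ 2) :
    ∑ l ∈ range (Z.card + 1), ‖(∏ z ∈ Z, (Polynomial.X - Polynomial.C z)).coeff l‖ * 3 ^ l
      ≤ 5 ^ Z.card := by
  classical
  induction Z using Finset.induction_on with
  | empty => simp
  | insert a Z ha ih =>
    have ih' := ih fun z hz => hZ z (mem_insert_of_mem hz)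
    have h2 := hZ a (mem_insert_self _ _)
    rw [card_insert_of_notMem ha, prod_insert ha]
    set p : Polynomial ℂ := ∏ z ∈ Z, (Polynomial.X - Polynomial.C z) with hp
    have hdeg : p.natDegree = Z.card := by
      rw [hp, Polynomial.natDegree_prod _ _ fun z _ => Polynomial.X_sub_C_ne_zero z]
      simp
    have htop : p.coeff (Z.card + 1) = 0 :=
      Polynomial.coeff_eq_zero_of_natDegree_lt (by rw [hdeg]; omega)
    have h0 : ((Polynomial.X - Polynomial.C a) * p).coeff 0 = -(a * p.coeff 0) := by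
      rw [sub_mul, Polynomial.coeff_sub, Polynomial.coeff_X_mul_zero, Polynomial.coeff_C_mul]
      ring
    have hs : ∀ l, ((Polynomial.X - Polynomial.C a) * p).coeff (l + 1) =
        p.coeff l - a * p.coeff (l + 1) := by
      intro l
      rw [sub_mul, Polynomial.coeff_sub, Polynomial.coeff_X_mul, Polynomial.coeff_C_mul]
    rw [sum_range_succ']
    have e1 : ∑ l ∈ range (Z.card + 1),
        ‖((Polynomial.X - Polynomial.C a) * p).coeff (l + 1)‖ * 3 ^ (l + 1) ≤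
        ∑ l ∈ range (Z.card + 1), (3 * (‖p.coeff l‖ * 3 ^ l) +
          2 * (‖p.coeff (l + 1)‖ * 3 ^ (l + 1))) := by
      refine sum_le_sum fun l _ => ?_
      rw [hs]
      have h3 : ‖p.coeff l - a * p.coeff (l + 1)‖ ≤ ‖p.coeff l‖ + 2 * ‖p.coeff (l + 1)‖ := by
        refine (norm_sub_le _ _).trans ?_
        rw [norm_mul]
        have := mul_le_mul_of_nonneg_right h2 (norm_nonneg (p.coeff (l + 1)))
        linarith
      have h4 := mul_le_mul_of_nonneg_right h3 (by positivity : (0 : ℝ) ≤ 3 ^ (l + 1))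
      refine h4.trans (le_of_eq ?_)
      ring
    have e2 : ‖((Polynomial.X - Polynomial.C a) * p).coeff 0‖ * 3 ^ 0 ≤
        2 * (‖p.coeff 0‖ * 3 ^ 0) := by
      rw [h0, norm_neg, norm_mul]
      have := mul_le_mul_of_nonneg_right h2 (norm_nonneg (p.coeff 0))
      linarith
    have e3 : ∑ l ∈ range (Z.card + 1), ‖p.coeff (l + 1)‖ * 3 ^ (l + 1) + ‖p.coeff 0‖ * 3 ^ 0 =
        ∑ l ∈ range (Z.card + 1), ‖p.coeff l‖ * 3 ^ l := by
      rw [← sum_range_succ' (fun l => ‖p.coeff l‖ * 3 ^ l), sum_range_succ _ (Z.card + 1), htop]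
      simp
    rw [sum_add_distrib, ← mul_sum, ← mul_sum] at e1
    have e4 : (5 : ℝ) ^ (Z.card + 1) = 5 * 5 ^ Z.card := by ring
    rw [e4]
    nlinarith [e1, e2, e3, ih']

/-- the divided difference of a monomial sum -/
theorem div_diff (N : ℕ) (w : ℕ → ℂ) (ζ z : ℂ) :
    (∑ k ∈ range N, z ^ k * ∑ l ∈ range (N + 1), if k < l then w l * ζ ^ (l - 1 - k) else 0) *
      (ζ - z) = ∑ l ∈ range (N + 1), w l * ζ ^ l - ∑ l ∈ range (N + 1), w l * z ^ l := by
  have h1 : ∑ k ∈ range N, z ^ k * (∑ l ∈ range (N + 1), if k < l then w l * ζ ^ (l - 1 - k) else 0)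
      = ∑ l ∈ range (N + 1), w l * ∑ k ∈ range l, z ^ k * ζ ^ (l - 1 - k) := by
    simp only [mul_sum]
    rw [sum_comm]
    refine sum_congr rfl fun l hl => ?_
    rw [mem_range] at hl
    have h2 : range l = (range N).filter (fun k => k < l) := by
      ext k
      simp only [mem_range, mem_filter]
      omega
    rw [h2, sum_filter]
    refine sum_congr rfl fun k _ => ?_
    split_ifs <;> ring
  rw [h1, sum_mul, ← sum_sub_distrib]
  refine sum_congr rfl fun l _ => ?_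
  have h3 := (Commute.all z ζ).mul_geom_sum₂ l
  have h4 : (∑ k ∈ range l, z ^ k * ζ ^ (l - 1 - k)) * (ζ - z) = ζ ^ l - z ^ l := by
    linear_combination -h3
  rw [mul_assoc, h4]
  ring

theorem q_bound (N : ℕ) (w : ℕ → ℂ) :
    ∑ k ∈ range N, (∑ l ∈ range (N + 1), if k < l then ‖w l‖ * 3 ^ (l - 1 - k) else (0 : ℝ)) ≤
      ∑ l ∈ range (N + 1), ‖w l‖ * 3 ^ l := by
  rw [sum_comm]
  refine sum_le_sum fun l hl => ?_
  rw [mem_range] at hl
  have h2 : range l = (range N).filter (fun k => k < l) := by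
    ext k
    simp only [mem_range, mem_filter]
    omega
  rw [← sum_filter, ← h2, ← mul_sum]
  refine mul_le_mul_of_nonneg_left ?_ (norm_nonneg _)
  rw [sum_range_reflect (fun k => (3 : ℝ) ^ k) l]
  have h3 := geom_sum_eq (show (3 : ℝ) ≠ 1 by norm_num) l
  rw [h3]
  have : (0 : ℝ) < 3 ^ l := by positivity
  rw [div_le_iff₀ (by norm_num)]
  linarith

/-- the main part: the circle of radius `r` is given -/
theorem pol_aux (Z : Finset ℂ) (z0 : ℂ) (ρ r : ℝ) (M : ℕ) (hZ : ∀ z ∈ Z, ‖z‖ ≤ 2)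
    (h0 : z0 ∈ Z) (hρ : 0 < ρ) (hρ2 : ρ ≤ 1 / 2) (hρz : ρ < ‖z0‖) (hr1 : ρ / 2 ≤ r) (hr2 : r ≤ ρ)
    (hprod : (ρ / 8) ^ Z.card ≤ ∏ z ∈ Z, |r - ‖z - z0‖|) :
    ∃ c : ℕ → ℂ, (∀ z ∈ Z, z ^ M * ∑ k ∈ range Z.card, c k * z ^ k =
      if ‖z - z0‖ < r then 1 else 0) ∧
    ∑ k ∈ range Z.card, ‖c k‖ ≤ (40 / ρ) ^ Z.card * (1 / (‖z0‖ - ρ)) ^ M := by
  have hr0 : 0 < r := by linarith
  set ω : Polynomial ℂ := ∏ z ∈ Z, (Polynomial.X - Polynomial.C z) with hω
  set N := Z.card with hN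
  have hdeg : ω.natDegree = N := by
    rw [hω, Polynomial.natDegree_prod _ _ fun z _ => Polynomial.X_sub_C_ne_zero z]
    simp [hN]
  have hev : ∀ ζ : ℂ, ω.eval ζ = ∑ l ∈ range (N + 1), ω.coeff l * ζ ^ l := by
    intro ζ
    rw [Polynomial.eval_eq_sum_range, hdeg]
  have hz0 : ‖z0‖ ≤ 2 := hZ z0 h0
  have hlow : ∀ ζ ∈ sphere z0 r, (ρ / 8) ^ N ≤ ‖ω.eval ζ‖ := by
    intro ζ hζ
    rw [mem_sphere_iff_norm] at hζ
    rw [hω, Polynomial.eval_prod, norm_prod]
    refine hprod.trans (prod_le_prod (fun _ _ => abs_nonneg _) fun z _ => ?_)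
    simp only [Polynomial.eval_sub, Polynomial.eval_X, Polynomial.eval_C]
    rw [← hζ]
    have := abs_norm_sub_norm_le (ζ - z0) (z - z0)
    rwa [sub_sub_sub_cancel_right] at this
  have hpos : 0 < (ρ / 8) ^ N := by positivity
  have hω0 : ∀ ζ ∈ sphere z0 r, ω.eval ζ ≠ 0 := fun ζ hζ =>
    norm_pos_iff.mp (hpos.trans_le (hlow ζ hζ))
  have hζn : ∀ ζ ∈ sphere z0 r, ‖z0‖ - ρ ≤ ‖ζ‖ ∧ ‖ζ‖ ≤ 3 := by
    intro ζ hζ
    rw [mem_sphere_iff_norm] at hζ
    constructor
    · have := norm_sub_norm_le z0 ζ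
      rw [norm_sub_rev] at this
      linarith
    · have := norm_add_le (ζ - z0) z0
      rw [sub_add_cancel] at this
      linarith
  have hζ0 : ∀ ζ ∈ closedBall z0 r, ζ ≠ 0 := by
    intro ζ hζ h
    rw [h, mem_closedBall, dist_zero_left] at hζ
    linarith
  set q : ℕ → ℂ → ℂ := fun k ζ =>
    ∑ l ∈ range (N + 1), if k < l then ω.coeff l * ζ ^ (l - 1 - k) else 0 with hq
  set B : ℕ → ℝ := fun k =>
    ∑ l ∈ range (N + 1), if k < l then ‖ω.coeff l‖ * 3 ^ (l - 1 - k) else (0 : ℝ) with hB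
  have hqc : ∀ k, Continuous (q k) := by
    intro k
    refine continuous_finsetSum _ fun l _ => ?_
    split_ifs
    · fun_prop
    · fun_prop
  have hqB : ∀ k, ∀ ζ ∈ sphere z0 r, ‖q k ζ‖ ≤ B k := by
    intro k ζ hζ
    refine (norm_sum_le _ _).trans (sum_le_sum fun l _ => ?_)
    split_ifs
    · rw [norm_mul, norm_pow]
      exact mul_le_mul_of_nonneg_left (pow_le_pow_left₀ (norm_nonneg _) (hζn ζ hζ).2 _)
        (norm_nonneg _)
    · simp
  have hcont : ∀ k, ContinuousOn (fun ζ => (ζ ^ M)⁻¹ * (q k ζ / ω.eval ζ)) (sphere z0 r) := by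
    intro k
    refine ContinuousOn.mul (ContinuousOn.inv₀ (by fun_prop) fun ζ hζ => ?_)
      (ContinuousOn.div (hqc k).continuousOn (by fun_prop) hω0)
    exact pow_ne_zero _ (hζ0 ζ (sphere_subset_closedBall hζ))
  have hint : ∀ k, CircleIntegrable (fun ζ => (ζ ^ M)⁻¹ * (q k ζ / ω.eval ζ)) z0 r :=
    fun k => (hcont k).circleIntegrable hr0.le
  refine ⟨fun k => (2 * Real.pi * I)⁻¹ * ∮ ζ in C(z0, r), (ζ ^ M)⁻¹ * (q k ζ / ω.eval ζ), ?_, ?_⟩
  · intro z hz
    have hωz : ω.eval z = 0 := by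
      rw [hω, Polynomial.eval_prod]
      exact prod_eq_zero hz (by simp)
    have hne : ‖z - z0‖ ≠ r := by
      intro h
      have h1 : ∏ z ∈ Z, |r - ‖z - z0‖| = 0 := prod_eq_zero hz (by rw [h]; simp)
      rw [h1] at hprod
      linarith
    -- the sum
    have h1 : ∑ k ∈ range N, (2 * Real.pi * I)⁻¹ *
        (∮ ζ in C(z0, r), (ζ ^ M)⁻¹ * (q k ζ / ω.eval ζ)) * z ^ k =
        (2 * Real.pi * I)⁻¹ * ∮ ζ in C(z0, r), (ζ - z)⁻¹ • (ζ ^ M)⁻¹ := by
      have h2 : ∑ k ∈ range N, (2 * Real.pi * I)⁻¹ *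
          (∮ ζ in C(z0, r), (ζ ^ M)⁻¹ * (q k ζ / ω.eval ζ)) * z ^ k =
          (2 * Real.pi * I)⁻¹ * ∑ k ∈ range N,
            ∮ ζ in C(z0, r), z ^ k * ((ζ ^ M)⁻¹ * (q k ζ / ω.eval ζ)) := by
        rw [mul_sum]
        refine sum_congr rfl fun k _ => ?_
        rw [circleIntegral.integral_const_mul]
        ring
      rw [h2, ← circleIntegral.integral_fun_sum fun k _ => ((hcont k).const_mul
        (z ^ k)).circleIntegrable hr0.le]
      congr 1
      refine circleIntegral.integral_congr hr0.le fun ζ hζ => ?_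
      simp only [smul_eq_mul]
      have h3 := div_diff N ω.coeff ζ z
      rw [← hev, ← hev, hωz, sub_zero] at h3
      have h4 : ζ - z ≠ 0 := by
        intro h
        apply hne
        rw [← sub_eq_zero.mp h]
        exact mem_sphere_iff_norm.mp hζ
      have h5 := hω0 ζ hζ
      have h6 : ∑ k ∈ range N, z ^ k * ((ζ ^ M)⁻¹ * (q k ζ / ω.eval ζ)) =
          (ζ ^ M)⁻¹ * ((∑ k ∈ range N, z ^ k * q k ζ) / ω.eval ζ) := by
        rw [Finset.sum_div, mul_sum]
        refine sum_congr rfl fun k _ => ?_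
        ring
      have h7 : (∑ k ∈ range N, z ^ k * q k ζ) = ω.eval ζ / (ζ - z) := by
        rw [eq_div_iff h4]
        exact h3
      rw [h6, h7]
      field_simp
    rw [h1]
    split_ifs with hlt
    · have hd : DiffContOnCl ℂ (fun ζ : ℂ => (ζ ^ M)⁻¹) (ball z0 r) := by
        refine DifferentiableOn.diffContOnCl ?_
        rw [closure_ball _ hr0.ne']
        intro ζ hζ
        exact (((differentiableAt_id).pow M).inv
          (pow_ne_zero _ (hζ0 ζ hζ))).differentiableWithinAt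
      rw [hd.circleIntegral_sub_inv_smul (mem_ball_iff_norm.mpr hlt), smul_eq_mul]
      have h2 : (2 * Real.pi * I : ℂ) ≠ 0 := by
        simp [Real.pi_ne_zero, Complex.I_ne_zero]
      have h3 : z ^ M ≠ 0 := pow_ne_zero _ (hζ0 z (mem_closedBall_iff_norm.mpr hlt.le))
      field_simp
    · have hgt : r < ‖z - z0‖ := lt_of_le_of_ne (not_lt.mp hlt) (Ne.symm hne)
      have hd : DiffContOnCl ℂ (fun ζ : ℂ => (ζ - z)⁻¹ • (ζ ^ M)⁻¹) (ball z0 r) := by
        refine DifferentiableOn.diffContOnCl ?_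
        rw [closure_ball _ hr0.ne']
        intro ζ hζ
        have h4 : ζ - z ≠ 0 := by
          intro h
          rw [sub_eq_zero.mp h, mem_closedBall_iff_norm] at hζ
          linarith
        exact (((differentiableAt_id.sub_const z).inv h4).smul
          (((differentiableAt_id).pow M).inv
          (pow_ne_zero _ (hζ0 ζ hζ)))).differentiableWithinAt
      rw [hd.circleIntegral_eq_zero hr0.le]
      simp
  · have hb : ∀ k, ‖(2 * Real.pi * I : ℂ)⁻¹ *
        ∮ ζ in C(z0, r), (ζ ^ M)⁻¹ * (q k ζ / ω.eval ζ)‖ ≤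
        B k * ((8 / ρ) ^ N * (1 / (‖z0‖ - ρ)) ^ M) := by
      intro k
      have hpos2 : 0 < ‖z0‖ - ρ := by linarith
      have hB0 : 0 ≤ B k := sum_nonneg fun l _ => by split_ifs <;> positivity
      have h1 : ‖∮ ζ in C(z0, r), (ζ ^ M)⁻¹ * (q k ζ / ω.eval ζ)‖ ≤
          2 * Real.pi * r * ((1 / (‖z0‖ - ρ)) ^ M * (B k / (ρ / 8) ^ N)) := by
        refine circleIntegral.norm_integral_le_of_norm_le_const hr0.le fun ζ hζ => ?_
        rw [norm_mul, norm_div, norm_inv, norm_pow]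
        refine mul_le_mul ?_ ?_ (by positivity) (by positivity)
        · rw [one_div, inv_pow]
          exact inv_anti₀ (by positivity) (pow_le_pow_left₀ hpos2.le (hζn ζ hζ).1 _)
        · exact div_le_div₀ hB0 (hqB k ζ hζ) hpos (hlow ζ hζ)
      rw [norm_mul, norm_inv]
      have h2 : ‖(2 * Real.pi * I : ℂ)‖ = 2 * Real.pi := by
        simp [abs_of_pos Real.pi_pos]
      rw [h2]
      have h3 : (2 * Real.pi)⁻¹ * ‖∮ ζ in C(z0, r), (ζ ^ M)⁻¹ * (q k ζ / ω.eval ζ)‖ ≤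
          (2 * Real.pi)⁻¹ * (2 * Real.pi * r * ((1 / (‖z0‖ - ρ)) ^ M * (B k / (ρ / 8) ^ N))) :=
        mul_le_mul_of_nonneg_left h1 (by positivity)
      refine h3.trans ?_
      have h4 : (2 * Real.pi)⁻¹ * (2 * Real.pi * r *
          ((1 / (‖z0‖ - ρ)) ^ M * (B k / (ρ / 8) ^ N))) =
          r * (B k * ((8 / ρ) ^ N * (1 / (‖z0‖ - ρ)) ^ M)) := by
        have hpi := Real.pi_ne_zero
        have e : B k / (ρ / 8) ^ N = B k * (8 / ρ) ^ N := by
          rw [div_eq_mul_inv, ← inv_pow, inv_div]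
        rw [e]
        field_simp
      rw [h4]
      have h5 : 0 ≤ B k * ((8 / ρ) ^ N * (1 / (‖z0‖ - ρ)) ^ M) := by positivity
      nlinarith
    refine (sum_le_sum fun k _ => hb k).trans ?_
    rw [← sum_mul]
    have h1 := (q_bound N ω.coeff).trans (coeff_sum Z hZ)
    have hpos2 : 0 < ‖z0‖ - ρ := by linarith
    have h2 : (40 / ρ) ^ N * (1 / (‖z0‖ - ρ)) ^ M =
        5 ^ N * ((8 / ρ) ^ N * (1 / (‖z0‖ - ρ)) ^ M) := by
      rw [← mul_assoc, ← mul_pow]
      congr 2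
      ring
    rw [h2]
    exact mul_le_mul_of_nonneg_right h1 (by positivity)

end Pool.Agent.Q38.SD
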