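import Pool.Agent.Q240.SD.Stm
import Pool.Agent.Q240.QS.MinMod
import Pool.Agent.Q38.SD.PolD

/-!
# Interpolation of the indicator of a disc (statement `S_Pol` of `Pool.Agent.Q240.SD.Stm`)
-/

set_option autoImplicit false

namespace Pool.Agent.Q38.SD

theorem pol : Pool.Agent.Q240.SD.S_Pol := by
  intro Z z0 ρ M h0 hZ hρ hρ2 hρz
  obtain ⟨r, hr1, hr2, hr3⟩ := Q240.QS.real_prod (Z.val.map fun z => ‖z - z0‖) (ρ / 2)
    (by linarith)
  rw [Multiset.card_map, Multiset.map_map] at hr3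
  have h1 : (Multiset.map ((fun a => |r - a|) ∘ fun z => ‖z - z0‖) Z.val).prod =
      ∏ z ∈ Z, |r - ‖z - z0‖| := rfl
  rw [h1] at hr3
  have h2 : ρ / 2 / 4 = ρ / 8 := by ring
  rw [h2] at hr3
  obtain ⟨c, hc1, hc2⟩ := pol_aux Z z0 ρ r M hZ h0 hρ hρ2 hρz hr1 (by linarith) hr3
  exact ⟨r, c, hr1, by linarith, hc1, hc2⟩

end Pool.Agent.Q38.SD
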